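import Pool.Agent.Results.MP_8c175f_gt.LargeWeakLindelofNumber

/-!
# MP_a09c40_gt, Q1: an almost discretely Lindelöf `T₁` space which is not weakly Lindelöf

For every infinite cardinal `μ` there is a `T₁` space in which the union of any `μ` discrete
subsets is contained in a closed Lindelöf subset, but which has an open cover such that no subfamily
of cardinality at most `μ` has a dense union. The space is the one of the starting files for
MP_8c175f_gt.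
-/

set_option autoImplicit false

open Set Topology Cardinal

namespace Pool.Agent.Results.MP_a09c40_gt.NotWeaklyLindelof

/-- Every discrete subset is contained in a Lindelöf subset. -/
def AlmostDiscretelyLindelof (X : Type) [TopologicalSpace X] : Prop :=
  ∀ D : Set X, DiscreteTopology D → ∃ L : Set X, IsLindelof L ∧ D ⊆ L

/-- Every open cover has a countable subfamily with a dense union. -/
def WeaklyLindelof (X : Type) [TopologicalSpace X] : Prop :=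
  ∀ 𝒰 : Set (Set X), (∀ U ∈ 𝒰, IsOpen U) → ⋃₀ 𝒰 = Set.univ →
    ∃ 𝒱 ⊆ 𝒰, 𝒱.Countable ∧ Dense (⋃₀ 𝒱)

/-- There is an almost discretely Lindelöf `T₁` space which is not weakly Lindelöf. Moreover, for
every infinite cardinal `μ`, there is a `T₁` space in which the union of any `μ` discrete subsets is
contained in a closed Lindelöf subset, while some open cover has no subfamily of cardinality at most
`μ` with a dense union. -/
theorem result :
    (∃ (X : Type) (_ : TopologicalSpace X), T1Space X ∧ AlmostDiscretelyLindelof X ∧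
      ¬ WeaklyLindelof X) ∧
    ∀ μ : Cardinal.{0}, ℵ₀ ≤ μ → ∃ (X : Type) (_ : TopologicalSpace X), T1Space X ∧
      AlmostDiscretelyLindelof X ∧
      (∀ 𝒟 : Set (Set X), #𝒟 ≤ μ → (∀ D ∈ 𝒟, DiscreteTopology D) →
        ∃ L : Set X, IsClosed L ∧ IsLindelof L ∧ ⋃₀ 𝒟 ⊆ L) ∧
      ∃ 𝒰 : Set (Set X), (∀ U ∈ 𝒰, IsOpen U) ∧ ⋃₀ 𝒰 = Set.univ ∧
        ∀ 𝒱 ⊆ 𝒰, #𝒱 ≤ μ → ¬ Dense (⋃₀ 𝒱) := by
  have key : ∀ μ : Cardinal.{0}, ℵ₀ ≤ μ → ∃ (X : Type) (_ : TopologicalSpace X), T1Space X ∧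
      AlmostDiscretelyLindelof X ∧
      (∀ 𝒟 : Set (Set X), #𝒟 ≤ μ → (∀ D ∈ 𝒟, DiscreteTopology D) →
        ∃ L : Set X, IsClosed L ∧ IsLindelof L ∧ ⋃₀ 𝒟 ⊆ L) ∧
      ∃ 𝒰 : Set (Set X), (∀ U ∈ 𝒰, IsOpen U) ∧ ⋃₀ 𝒰 = Set.univ ∧
        ∀ 𝒱 ⊆ 𝒰, #𝒱 ≤ μ → ¬ Dense (⋃₀ 𝒱) := by
    intro μ hμ
    obtain ⟨X, i1, h1, h2, h3, -, h4, -⟩ :=
      Pool.Agent.Results.MP_8c175f_gt.LargeWeakLindelofNumber.result μ hμ
    refine ⟨X, i1, h1, fun D hD => ⟨closure D, ?_, subset_closure⟩, fun 𝒟 h𝒟 hD =>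
      ⟨closure (⋃₀ 𝒟), isClosed_closure, ?_, subset_closure⟩, h4⟩
    · exact isLindelof_iff_lindelofSpace.2 (h2 D hD)
    · exact isLindelof_iff_lindelofSpace.2 (h3 𝒟 h𝒟 hD)
  refine ⟨?_, key⟩
  obtain ⟨X, i1, h1, h2, -, 𝒰, hU, hU', hV⟩ := key ℵ₀ le_rfl
  refine ⟨X, i1, h1, h2, fun h => ?_⟩
  obtain ⟨𝒱, h𝒱, hc, hd⟩ := h 𝒰 hU hU'
  exact hV 𝒱 h𝒱 (Cardinal.mk_le_aleph0_iff.2 hc.to_subtype) hd

end Pool.Agent.Results.MP_a09c40_gt.NotWeaklyLindelof
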